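import Mathlib

open Set Filter Topology

namespace Pool.Agent.Results.MP_98aad6_an.FriEmpty

/-- Faces of a convex set. -/
def IsFace {X : Type} [AddCommGroup X] [Module ℝ X] (C F : Set X) : Prop :=
  F ⊆ C ∧ Convex ℝ F ∧ ∀ x ∈ F, ∀ y ∈ C, ∀ z ∈ C, x ∈ openSegment ℝ y z → y ∈ F ∧ z ∈ F

/-- The smallest face of `C` containing `x`. -/
def minFace {X : Type} [AddCommGroup X] [Module ℝ X] (C : Set X) (x : X) : Set X :=
  ⋂₀ {F | IsFace C F ∧ x ∈ F}

/-- The face relative interior. -/
def fri {X : Type} [AddCommGroup X] [Module ℝ X] [TopologicalSpace X] (C : Set X) : Set X :=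
  {x | x ∈ C ∧ C ⊆ closure (minFace C x)}

/-- The quasi-relative interior. -/
def qri {X : Type} [AddCommGroup X] [Module ℝ X] [TopologicalSpace X] (C : Set X) : Set X :=
  {x | x ∈ C ∧ ∃ L : Submodule ℝ X,
    (L : Set X) = closure {z | ∃ y ∈ C, ∃ α : ℝ, 0 ≤ α ∧ z = α • (y - x)}}

/-- The compact convex set of nonnegative families with sum at most one. -/
def K : Set (ℝ → ℝ) := {a | (∀ g, 0 ≤ a g) ∧ ∀ s : Finset ℝ, ∑ g ∈ s, a g ≤ 1}

/-- The map `a ↦ a - a(0) 𝟙`. -/
def T : (ℝ → ℝ) →ₗ[ℝ] (ℝ → ℝ) where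
  toFun a := fun g => a g - a 0
  map_add' a b := by funext g; simp only [Pi.add_apply]; ring
  map_smul' c a := by
    funext g; simp only [Pi.smul_apply, smul_eq_mul, RingHom.id_apply]; ring

theorem T_apply (a : ℝ → ℝ) (g : ℝ) : T a g = a g - a 0 := rfl

theorem T_cont : Continuous T := by
  refine continuous_pi (fun g => ?_)
  exact (continuous_apply g).sub (continuous_apply 0)

/-- The convex set. -/
def C : Set (ℝ → ℝ) := T '' K

theorem K_convex : Convex ℝ K := by
  rintro a ⟨ha, ha'⟩ b ⟨hb, hb'⟩ s t hs ht hst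
  refine ⟨fun g => ?_, fun S => ?_⟩
  · show 0 ≤ s * a g + t * b g
    exact add_nonneg (mul_nonneg hs (ha g)) (mul_nonneg ht (hb g))
  · have h1 : ∑ g ∈ S, (s • a + t • b) g = s * ∑ g ∈ S, a g + t * ∑ g ∈ S, b g := by
      rw [Finset.mul_sum, Finset.mul_sum, ← Finset.sum_add_distrib]
      rfl
    rw [h1]
    nlinarith [ha' S, hb' S]

theorem K_closed : IsClosed K := by
  have h : K = (⋂ g : ℝ, {a : ℝ → ℝ | 0 ≤ a g}) ∩
      ⋂ s : Finset ℝ, {a : ℝ → ℝ | ∑ g ∈ s, a g ≤ 1} := by
    ext a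
    simp only [mem_inter_iff, mem_iInter]
    exact Iff.rfl
  rw [h]
  refine IsClosed.inter (isClosed_iInter (fun g => isClosed_le continuous_const
    (continuous_apply g))) (isClosed_iInter (fun s => isClosed_le ?_ continuous_const))
  exact continuous_finsetSum _ (fun g _ => continuous_apply g)

theorem K_le_one {a : ℝ → ℝ} (ha : a ∈ K) (g : ℝ) : a g ≤ 1 := by
  have := ha.2 {g}
  simpa using this

theorem K_compact : IsCompact K := by
  have h : IsCompact (univ.pi fun _ : ℝ => Icc (0 : ℝ) 1) :=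
    isCompact_univ_pi (fun _ => isCompact_Icc)
  refine h.of_isClosed_subset K_closed ?_
  intro a ha g _
  exact ⟨ha.1 g, K_le_one ha g⟩

theorem K_countable {a : ℝ → ℝ} (ha : a ∈ K) : (Function.support a).Countable := by
  have : Summable a := summable_of_sum_le ha.1 ha.2
  exact this.countable_support

/-- Outside a countable set there is always a further index. -/
theorem exists_avoid {S : Set ℝ} (hS : S.Countable) : ∃ g : ℝ, g ∉ S := by
  by_contra hcon
  push Not at hcon
  have : S = univ := eq_univ_of_forall hcon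
  rw [this] at hS
  exact Cardinal.not_countable_real hS

theorem C_convex : Convex ℝ C := K_convex.linear_image T
theorem C_compact : IsCompact C := K_compact.image T_cont

theorem single_mem (g : ℝ) : (Pi.single g 1 : ℝ → ℝ) ∈ K := by
  classical
  refine ⟨fun k => ?_, fun s => ?_⟩
  · by_cases h : k = g
    · subst h; simp
    · rw [Pi.single_eq_of_ne h]
  · rw [Finset.sum_pi_single']
    split_ifs <;> norm_num

theorem zero_mem : (0 : ℝ → ℝ) ∈ C := by
  refine ⟨0, ⟨fun g => le_rfl, fun s => by simp⟩, map_zero T⟩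

theorem zero_qri : (0 : ℝ → ℝ) ∈ qri C := by
  classical
  refine ⟨zero_mem, LinearMap.ker (LinearMap.proj (R := ℝ) (φ := fun _ : ℝ => ℝ) 0), ?_⟩
  have hL : ∀ x : ℝ → ℝ, x ∈ (LinearMap.ker (LinearMap.proj (R := ℝ) (φ := fun _ : ℝ => ℝ) 0) :
      Set (ℝ → ℝ)) ↔ x 0 = 0 := by
    intro x
    rw [SetLike.mem_coe, LinearMap.mem_ker]
    rfl
  apply Subset.antisymm
  · intro x hx
    rw [hL] at hx
    rw [mem_closure_iff]
    intro U hU hxU
    obtain ⟨I, u, hu, hI⟩ := isOpen_pi_iff.mp hU x hxU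
    set t : ℝ := ∑ i ∈ I, |x i| with ht
    have ht0 : 0 ≤ t := Finset.sum_nonneg (fun _ _ => abs_nonneg _)
    have htx : ∀ i ∈ I, |x i| ≤ t := fun i hi =>
      Finset.single_le_sum (f := fun i => |x i|) (fun _ _ => abs_nonneg _) hi
    set b : ℝ → ℝ := fun g => if g = 0 then t else if g ∈ I then x g + t else 0 with hb
    have hb0 : ∀ g, 0 ≤ b g := by
      intro g
      simp only [hb]
      split_ifs with h1 h2
      · exact ht0
      · have := neg_abs_le (x g)
        linarith [htx g h2]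
      · exact le_rfl
    set J : Finset ℝ := insert 0 I with hJ
    set N : ℝ := 1 + ∑ g ∈ J, b g with hN
    have hN0 : 0 < N := by
      have : 0 ≤ ∑ g ∈ J, b g := Finset.sum_nonneg (fun g _ => hb0 g)
      linarith
    have hbs : ∀ s : Finset ℝ, ∑ g ∈ s, b g ≤ ∑ g ∈ J, b g := by
      intro s
      have h1 : ∑ g ∈ s, b g ≤ ∑ g ∈ s ∪ J, b g :=
        Finset.sum_le_sum_of_subset_of_nonneg Finset.subset_union_left (fun g _ _ => hb0 g)
      have h2 : ∑ g ∈ J, b g = ∑ g ∈ s ∪ J, b g := by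
        refine Finset.sum_subset Finset.subset_union_right (fun g _ hg => ?_)
        rw [hJ, Finset.mem_insert, not_or] at hg
        simp only [hb]
        rw [if_neg hg.1, if_neg hg.2]
      linarith
    have hK : (N⁻¹ • b) ∈ K := by
      refine ⟨fun g => ?_, fun s => ?_⟩
      · show 0 ≤ N⁻¹ * b g
        exact mul_nonneg (inv_nonneg.mpr hN0.le) (hb0 g)
      · have h1 : ∑ g ∈ s, (N⁻¹ • b) g = N⁻¹ * ∑ g ∈ s, b g := by
          rw [Finset.mul_sum]; rfl
        rw [h1, inv_mul_le_iff₀ hN0, mul_one]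
        linarith [hbs s]
    refine ⟨T b, hI ?_, T (N⁻¹ • b), ⟨_, hK, rfl⟩, N, hN0.le, ?_⟩
    · intro i hi
      have : T b i = x i := by
        rw [T_apply]
        by_cases h0 : i = 0
        · subst h0; rw [hx]; ring
        · simp only [hb]
          rw [if_neg h0, if_pos (Finset.mem_coe.mp hi), if_pos trivial]
          ring
      rw [this]
      exact (hu i (Finset.mem_coe.mp hi)).2
    · rw [sub_zero, map_smul, smul_smul, mul_inv_cancel₀ hN0.ne', one_smul]
  · refine closure_minimal ?_ ?_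
    · rintro _ ⟨_, ⟨a, _, rfl⟩, α, _, rfl⟩
      rw [hL]
      show α * (T a 0 - 0) = 0
      rw [T_apply]
      ring
    · have : (LinearMap.ker (LinearMap.proj (R := ℝ) (φ := fun _ : ℝ => ℝ) 0) : Set (ℝ → ℝ)) =
          {x | x 0 = 0} := by
        ext x; exact hL x
      rw [this]
      exact isClosed_eq (continuous_apply 0) continuous_const

/-- The face of `C` of families supported in the support of `a`. -/
def G (a : ℝ → ℝ) : Set (ℝ → ℝ) := T '' {b | b ∈ K ∧ ∀ g, a g = 0 → b g = 0}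

theorem G_face (a : ℝ → ℝ) : IsFace C (G a) := by
  refine ⟨?_, ?_, ?_⟩
  · rintro _ ⟨b, hb, rfl⟩
    exact ⟨b, hb.1, rfl⟩
  · refine Convex.linear_image ?_ T
    rintro b ⟨hb, hb'⟩ c ⟨hc, hc'⟩ s t hs ht hst
    refine ⟨K_convex hb hc hs ht hst, fun g hg => ?_⟩
    show s * b g + t * c g = 0
    rw [hb' g hg, hc' g hg]
    ring
  · rintro _ ⟨b, ⟨hb, hb'⟩, rfl⟩ _ ⟨c, hc, rfl⟩ _ ⟨d, hd, rfl⟩ ⟨s, t, hs, ht, hst, hseg⟩
    -- an index outside all supports
    obtain ⟨g', hg'⟩ := exists_avoid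
      (((K_countable hb).union (K_countable hc)).union (K_countable hd))
    simp only [mem_union, Function.mem_support, not_or, not_not] at hg'
    obtain ⟨⟨h1, h2⟩, h3⟩ := hg'
    have hcoord : ∀ g, s * (c g - c 0) + t * (d g - d 0) = b g - b 0 := fun g => congrFun hseg g
    have hk : s * c 0 + t * d 0 = b 0 := by
      have := hcoord g'
      rw [h1, h2, h3] at this
      linarith
    have hbg : ∀ g, b g = s * c g + t * d g := by
      intro g
      have := hcoord g
      linarith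
    have hz : ∀ g, a g = 0 → c g = 0 ∧ d g = 0 := by
      intro g hg
      have e1 := hb' g hg
      rw [hbg g] at e1
      have e2 : 0 ≤ s * c g := mul_nonneg hs.le (hc.1 g)
      have e3 : 0 ≤ t * d g := mul_nonneg ht.le (hd.1 g)
      have e4 : s * c g = 0 := by linarith
      have e5 : t * d g = 0 := by linarith
      exact ⟨(mul_eq_zero.mp e4).resolve_left hs.ne', (mul_eq_zero.mp e5).resolve_left ht.ne'⟩
    exact ⟨⟨c, ⟨hc, fun g hg => (hz g hg).1⟩, rfl⟩, ⟨d, ⟨hd, fun g hg => (hz g hg).2⟩, rfl⟩⟩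

theorem fri_empty : fri C = ∅ := by
  rw [eq_empty_iff_forall_notMem]
  rintro _ ⟨⟨a, ha, rfl⟩, hsub⟩
  obtain ⟨g, hg⟩ := exists_avoid ((K_countable ha).union (countable_singleton (0 : ℝ)))
  simp only [mem_union, Function.mem_support, not_or, not_not, mem_singleton_iff] at hg
  obtain ⟨hag, hg0⟩ := hg
  have h1 : T (Pi.single g 1) ∈ closure (minFace C (T a)) := hsub ⟨_, single_mem g, rfl⟩
  have h2 : minFace C (T a) ⊆ {w : ℝ → ℝ | w g ≤ 0} := by
    intro w hw
    have h3 : w ∈ G a := hw (G a) ⟨G_face a, ⟨a, ⟨ha, fun _ h => h⟩, rfl⟩⟩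
    obtain ⟨b, ⟨hb, hb'⟩, rfl⟩ := h3
    show b g - b 0 ≤ 0
    rw [hb' g hag]
    linarith [hb.1 0]
  have h3 : IsClosed {w : ℝ → ℝ | w g ≤ 0} := isClosed_le (continuous_apply g) continuous_const
  have h4 := closure_minimal h2 h3 h1
  have h5 : T (Pi.single g 1) g ≤ 0 := h4
  rw [T_apply, Pi.single_eq_same, Pi.single_eq_of_ne (Ne.symm hg0)] at h5
  norm_num at h5

/-- There is a compact convex set in a Hausdorff locally convex space with nonempty quasi-relative
interior and empty face relative interior. -/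
theorem result : ∃ (X : Type) (_ : AddCommGroup X) (_ : Module ℝ X) (_ : TopologicalSpace X),
    IsTopologicalAddGroup X ∧ ContinuousSMul ℝ X ∧ T2Space X ∧ LocallyConvexSpace ℝ X ∧
    ∃ C : Set X, Convex ℝ C ∧ IsCompact C ∧ (qri C).Nonempty ∧ fri C = ∅ :=
  ⟨ℝ → ℝ, inferInstance, inferInstance, inferInstance, inferInstance, inferInstance,
    inferInstance, inferInstance, C, C_convex, C_compact, ⟨0, zero_qri⟩, fri_empty⟩

end Pool.Agent.Results.MP_98aad6_an.FriEmpty
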